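import Mathlib

set_option autoImplicit false

namespace Pool.Agent.Results.MP_8a0632_lc.GridIdeal

open Filter Topology Finset
open Classical

/-- A proper ideal on `ℕ` containing all finite sets. -/
def IsIdeal (I : Set (Set ℕ)) : Prop :=
  (∀ A ∈ I, ∀ B ∈ I, A ∪ B ∈ I) ∧ (∀ A ∈ I, ∀ B ⊆ A, B ∈ I) ∧ Set.univ ∉ I ∧
    ∀ A : Set ℕ, A.Finite → A ∈ I

/-- The density zero ideal. -/
def Z : Set (Set ℕ) :=
  {A | Tendsto (fun n : ℕ => (#{i ∈ range n | i ∈ A} : ℝ) / n) atTop (𝓝 0)}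

/-- The conditions on a weight function of an Erdős–Ulam ideal. -/
def EUWeight (f : ℕ → ℝ) : Prop :=
  (∀ i, 0 ≤ f i) ∧ Tendsto (fun n => ∑ i ∈ range n, f i) atTop atTop ∧
    Tendsto (fun n => f n / ∑ i ∈ range (n + 1), f i) atTop (𝓝 0)

/-- The Erdős–Ulam ideal `EU_f`. -/
def EU (f : ℕ → ℝ) : Set (Set ℕ) :=
  {A | Tendsto (fun n => (∑ i ∈ range n with i ∈ A, f i) / ∑ i ∈ range n, f i) atTop (𝓝 0)}

/-- The Rudin–Blass order. -/
def RB (I J : Set (Set ℕ)) : Prop :=
  ∃ φ : ℕ → ℕ, (∀ y, (φ ⁻¹' {y}).Finite) ∧ ∀ A, A ∈ I ↔ φ ⁻¹' A ∈ J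

theorem comb (m : ℕ) (hm : 0 < m) (w : ℕ → ℕ → ℝ) (l : ℕ → ℕ → ℕ) (δ : ℝ) (hδ : 0 < δ)
    (hw : ∀ a b, 0 ≤ w a b) (hat : ∀ a < m, ∀ b < m, w a b ≤ δ ^ 2 / 2 * 2 ^ l a b)
    (htot : ∀ k, ∑ b ∈ range m, ∑ a ∈ range m with l a b = k, w a b ≤ 2 * 2 ^ k)
    (hcol : ∀ b < m, ∀ S ⊆ range m, (∀ k, ∑ a ∈ S with l a b = k, w a b ≤ δ * 2 ^ k) → 2 * #S < m)
    (hrow : ∀ a < m, ∀ S ⊆ range m, (∀ k, ∑ b ∈ S with l a b = k, w a b ≤ δ * 2 ^ k) → 2 * #S < m) :
    False := by
  let H : ℕ → ℕ → Prop := fun k b => δ * 2 ^ k < ∑ a ∈ range m with l a b = k, w a b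
  have h1 : ∀ b < m, 2 * #{a ∈ range m | ¬ H (l a b) b} < m := fun b hb =>
    hcol b hb _ (filter_subset _ _) fun k => by
      by_cases h : H k b
      · rw [sum_eq_zero]
        · positivity
        · intro a ha
          simp only [mem_filter] at ha
          exact absurd (ha.2 ▸ h) ha.1.2
      · exact (sum_le_sum_of_subset_of_nonneg (filter_subset_filter _ (filter_subset _ _))
          fun _ _ _ => hw _ _).trans (not_lt.1 h)
  have h2 : ∀ a < m, 2 * #{b ∈ range m | H (l a b) b} < m := fun a ha =>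
    hrow a ha _ (filter_subset _ _) fun k => by
      set B := {b ∈ {b ∈ range m | H (l a b) b} | l a b = k} with hB
      have hB' : ∀ b ∈ B, b < m ∧ H k b ∧ l a b = k := fun b hb => by
        simp only [hB, mem_filter, mem_range] at hb
        exact ⟨hb.1.1, hb.2 ▸ hb.1.2, hb.2⟩
      have k1 : #B * (δ * 2 ^ k) ≤ 2 * 2 ^ k := by
        rw [← nsmul_eq_mul]
        refine (card_nsmul_le_sum B _ _ fun b hb => (hB' b hb).2.1.le).trans (le_trans
          (sum_le_sum_of_subset_of_nonneg (fun b hb => mem_range.2 (hB' b hb).1)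
            fun _ _ _ => sum_nonneg fun _ _ => hw _ _) (htot k))
      have k2 : ∑ b ∈ B, w a b ≤ #B * (δ ^ 2 / 2 * 2 ^ k) := by
        rw [← nsmul_eq_mul]
        exact sum_le_card_nsmul _ _ _ fun b hb => (hB' b hb).2.2 ▸ hat a ha b (hB' b hb).1
      nlinarith
  have h3 : ∑ a ∈ range m, #{b ∈ range m | H (l a b) b} +
      ∑ b ∈ range m, #{a ∈ range m | ¬ H (l a b) b} = m * m := by
    simp only [card_filter]
    rw [sum_comm (s := range m) (f := fun b a => if ¬ H (l a b) b then 1 else 0), ← sum_add_distrib]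
    simp only [← sum_add_distrib]
    rw [sum_congr rfl fun a _ => sum_congr rfl fun b _ =>
      show ((if H (l a b) b then 1 else 0) + if ¬ H (l a b) b then 1 else 0) = 1 by
        by_cases h : H (l a b) b <;> simp [h]]
    simp
  have h4 := sum_lt_sum_of_nonempty (nonempty_range_iff.2 hm.ne') fun b hb => h1 b (mem_range.1 hb)
  have h5 := sum_lt_sum_of_nonempty (nonempty_range_iff.2 hm.ne') fun a ha => h2 a (mem_range.1 ha)
  rw [← mul_sum, sum_const, card_range, smul_eq_mul] at h4 h5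
  omega

theorem Z_iff (A : Set ℕ) : A ∈ Z ↔ ∀ k, ∃ N, ∀ n, N ≤ n → k * Nat.count (· ∈ A) n ≤ n := by
  simp only [Z, Set.mem_ofPred_eq, Metric.tendsto_atTop, ← Nat.count_eq_card_filter_range]
  constructor
  · intro h k
    obtain ⟨N, hN⟩ := h (1 / (k + 1)) (by positivity)
    refine ⟨N + 1, fun n hn => ?_⟩
    have a := hN n (by omega)
    have b : (0 : ℝ) < n := by exact_mod_cast (show 0 < n by omega)
    rw [Real.dist_eq, sub_zero, abs_of_nonneg (by positivity),
      div_lt_div_iff₀ b (by positivity)] at a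
    have : Nat.count (· ∈ A) n * (k + 1) < 1 * n := by exact_mod_cast a
    nlinarith
  · intro h ε hε
    obtain ⟨k, hk⟩ := exists_nat_gt (1 / ε)
    obtain ⟨N, hN⟩ := h k
    refine ⟨N + 1, fun n hn => ?_⟩
    have a : (k : ℝ) * Nat.count (· ∈ A) n ≤ n := by exact_mod_cast hN n (by omega)
    have b : (0 : ℝ) < n := by exact_mod_cast (show 0 < n by omega)
    rw [Real.dist_eq, sub_zero, abs_of_nonneg (by positivity), div_lt_iff₀ b]
    rw [div_lt_iff₀ hε] at hk
    have c : (0 : ℝ) ≤ Nat.count (· ∈ A) n := by positivity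
    by_contra d
    nlinarith [mul_le_mul_of_nonneg_left (not_lt.1 d) (show (0 : ℝ) ≤ k by positivity)]

theorem Z_dy (A : Set ℕ) :
    A ∈ Z ↔ ∀ k, ∃ N, ∀ t, N ≤ t → k * Nat.count (fun x => 2 ^ t + x ∈ A) (2 ^ t) ≤ 2 ^ t := by
  rw [Z_iff]
  have e : ∀ t, Nat.count (· ∈ A) (2 ^ (t + 1)) =
      Nat.count (· ∈ A) (2 ^ t) + Nat.count (fun x => 2 ^ t + x ∈ A) (2 ^ t) := fun t => by
    rw [pow_succ, mul_two, Nat.count_add]
  constructor
  · intro h k
    obtain ⟨N, hN⟩ := h (2 * k)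
    refine ⟨N, fun t ht => ?_⟩
    have := hN (2 ^ (t + 1)) (by have := @Nat.lt_two_pow_self (t + 1); omega)
    rw [e, pow_succ] at this
    nlinarith [Nat.zero_le (k * Nat.count (· ∈ A) (2 ^ t))]
  · intro h k
    obtain ⟨N, hN⟩ := h (4 * k)
    have h1 : ∀ t, N ≤ t → 4 * k * Nat.count (· ∈ A) (2 ^ t) ≤ 4 * k * 2 ^ N + 2 ^ t := by
      intro t ht
      induction t, ht using Nat.le_induction with
      | base => exact (Nat.mul_le_mul_left _ (Nat.count_le _)).trans (Nat.le_add_right _ _)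
      | succ t ht ih => have := hN t ht; rw [e, pow_succ, mul_add]; omega
    refine ⟨2 * k * 2 ^ N + 2 ^ N, fun n hn => ?_⟩
    have h0 : n ≠ 0 := by have : 0 < 2 ^ N := by positivity
                          omega
    have h2 := Nat.lt_pow_succ_log_self (show 1 < 2 by omega) n
    have h3 := Nat.pow_log_le_self 2 h0
    have h4 : N ≤ Nat.log 2 n := Nat.le_log_of_pow_le (by omega) (by omega)
    have h5 := h1 (Nat.log 2 n + 1) (by omega)
    have h6 := Nat.mul_le_mul_left (4 * k) (Nat.count_monotone (· ∈ A) h2.le)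
    rw [Nat.succ_eq_add_one] at h6
    rw [pow_succ] at h5 h6
    nlinarith

def J (t : ℕ) : ℕ := if t.unpair.2 < 2 * 2 ^ t.unpair.1 then t.unpair.1 else t
def aa (t : ℕ) : ℕ := if t.unpair.2 < 2 * 2 ^ t.unpair.1 then t.unpair.2 / 2 else 0
def pt (t c : ℕ) : ℕ :=
  Nat.pair (J t) (if t.unpair.2 % 2 = 0 then Nat.pair (aa t) c else Nat.pair c (aa t))
def phi (x : ℕ) : ℕ := pt (Nat.log 2 x) (x % 2 ^ J (Nat.log 2 x))
def psi (x : ℕ) : ℕ :=
  if x.unpair.2.unpair.1 < 2 ^ x.unpair.1 ∧ x.unpair.2.unpair.2 < 2 ^ x.unpair.1 then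
    2 ^ x.unpair.1 + (x.unpair.2.unpair.1 ^^^ x.unpair.2.unpair.2) else x

theorem J_le (t : ℕ) : J t ≤ t := by
  unfold J; split_ifs; exacts [Nat.unpair_left_le t, le_rfl]

theorem aa_lt (t : ℕ) : aa t < 2 ^ J t := by
  unfold aa J; split_ifs; exacts [by omega, by positivity]

theorem J_big (j : ℕ) : ∃ N, ∀ t, N ≤ t → j ≤ J t := by
  have : {t | J t < j}.Finite := by
    refine ((((range j ×ˢ range (2 * 2 ^ j)).image fun p => Nat.pair p.1 p.2) ∪
      range j).finite_toSet).subset fun t ht => ?_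
    simp only [Set.mem_ofPred_eq, J] at ht
    simp only [coe_union, coe_image, Set.mem_union, Set.mem_image, mem_coe, mem_product, mem_range]
    split_ifs at ht with h
    · refine Or.inl ⟨t.unpair, ⟨ht, ?_⟩, Nat.pair_unpair t⟩
      have := Nat.pow_le_pow_right (show 0 < 2 by omega) ht.le
      omega
    · exact Or.inr ht
  obtain ⟨N, hN⟩ := this.bddAbove
  exact ⟨N + 1, fun t ht => not_lt.1 fun h => by have := hN h; omega⟩

theorem count_per (p : ℕ → Prop) (n m : ℕ) :
    Nat.count (fun y => p (y % n)) (m * n) = m * Nat.count p n := by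
  induction m with
  | zero => simp
  | succ m ih =>
    rw [Nat.succ_mul, Nat.count_add, ih, Nat.succ_mul]
    congr 1
    simp only [Nat.count_eq_card_filter_range]
    exact congrArg _ (filter_congr fun y hy => by
      rw [Nat.mul_add_mod', Nat.mod_eq_of_lt (mem_range.1 hy)])

theorem I_iff (A : Set ℕ) : phi ⁻¹' A ∈ Z ↔
    ∀ k, ∃ N, ∀ t, N ≤ t → k * Nat.count (fun c => pt t c ∈ A) (2 ^ J t) ≤ 2 ^ J t := by
  rw [Z_dy]
  refine forall_congr' fun k => exists_congr fun N => forall₂_congr fun t _ => ?_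
  obtain ⟨d, hd⟩ := Nat.exists_eq_add_of_le (J_le t)
  have e : 2 ^ t = 2 ^ d * 2 ^ J t := by rw [← pow_add, add_comm, ← hd]
  have : Nat.count (fun x => 2 ^ t + x ∈ phi ⁻¹' A) (2 ^ t) =
      2 ^ d * Nat.count (fun c => pt t c ∈ A) (2 ^ J t) := by
    rw [← count_per, ← e]
    simp only [Nat.count_eq_card_filter_range]
    refine congrArg _ (filter_congr fun y hy => ?_)
    have h1 : Nat.log 2 (2 ^ t + y) = t :=
      Nat.log_eq_of_pow_le_of_lt_pow (by omega) (by have := mem_range.1 hy; omega)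
    rw [Set.mem_preimage, phi, h1, e, Nat.mul_add_mod']
  rw [this, mul_left_comm, e]
  exact Nat.mul_le_mul_left_iff (by positivity)

theorem psi_pt (B : Set ℕ) (t : ℕ) : Nat.count (fun c => pt t c ∈ psi ⁻¹' B) (2 ^ J t) =
    Nat.count (fun x => 2 ^ J t + x ∈ B) (2 ^ J t) := by
  simp only [Nat.count_eq_card_filter_range]
  have e : ∀ c < 2 ^ J t, psi (pt t c) = 2 ^ J t + (aa t ^^^ c) := fun c hc => by
    unfold pt psi
    split_ifs with h1 h2 h2 <;> simp_all [aa_lt, Nat.xor_comm]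
  refine card_nbij' (fun c => aa t ^^^ c) (fun c => aa t ^^^ c) ?_ ?_ (by simp [Set.LeftInvOn])
    (by simp [Set.RightInvOn, Set.LeftInvOn])
  · intro c hc
    simp only [coe_filter, mem_range, Set.mem_ofPred_eq, Set.mem_preimage] at hc ⊢
    exact ⟨Nat.xor_lt_two_pow (aa_lt t) hc.1, e c hc.1 ▸ hc.2⟩
  · intro c hc
    simp only [coe_filter, mem_range, Set.mem_ofPred_eq, Set.mem_preimage] at hc ⊢
    have := Nat.xor_lt_two_pow (aa_lt t) hc.1
    exact ⟨this, by rw [e _ this]; simpa using hc.2⟩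

theorem J_pair {j r : ℕ} (h : r < 2 * 2 ^ j) : J (Nat.pair j r) = j := by simp [J, h]

theorem phi_fin (y : ℕ) : (phi ⁻¹' {y}).Finite := by
  obtain ⟨N, hN⟩ := J_big (y.unpair.1 + 1)
  refine (Set.finite_lt_nat (2 ^ N)).subset fun x hx => ?_
  have h1 : J (Nat.log 2 x) = y.unpair.1 := by rw [← (hx : phi x = y)]; simp [phi, pt]
  have h2 : Nat.log 2 x < N := not_le.1 fun h => by have := hN _ h; omega
  exact (Nat.lt_pow_succ_log_self (by omega) x).trans_le (Nat.pow_le_pow_right (by omega) h2)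

theorem psi_fin (y : ℕ) : (psi ⁻¹' {y}).Finite := by
  refine (insert y ((range y ×ˢ range y ×ˢ range y).image
    fun p => Nat.pair p.1 (Nat.pair p.2.1 p.2.2))).finite_toSet.subset fun x hx => ?_
  have h : psi x = y := hx
  unfold psi at h
  simp only [coe_insert, coe_image, Set.mem_insert_iff, Set.mem_image, mem_coe, mem_product,
    mem_range]
  split_ifs at h with h1
  · have := @Nat.lt_two_pow_self x.unpair.1
    exact Or.inr ⟨(x.unpair.1, x.unpair.2.unpair), ⟨by dsimp only; omega, by dsimp only; omega,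
      by dsimp only; omega⟩, by simp⟩
  · exact Or.inl h

theorem union_mem {f : ℕ → ℝ} (hf : EUWeight f) (S : ℕ → Finset ℕ)
    (hS : ∀ m n, ∑ i ∈ S m with i < n, f i ≤ (1 / 2) ^ m * ∑ i ∈ range n, f i) :
    (⋃ m, (S m : Set ℕ)) ∈ EU f := by
  refine Metric.tendsto_atTop.2 fun ε hε => ?_
  obtain ⟨M, hM⟩ := exists_pow_lt_of_lt_one (show 0 < ε / 4 by positivity)
    (show (1 / 2 : ℝ) < 1 by norm_num)
  obtain ⟨C, hC⟩ : ∃ C, C = ∑ i ∈ (range M).biUnion S, f i := ⟨_, rfl⟩
  obtain ⟨N, hN⟩ := eventually_atTop.1 (hf.2.1.eventually_gt_atTop (max 0 (2 * C / ε)))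
  refine ⟨N, fun n hn => ?_⟩
  have h0 := (le_max_left _ _).trans_lt (hN n hn)
  have h1 := (le_max_right _ _).trans_lt (hN n hn)
  have h2 : ∀ M', M ≤ M' → ∑ i ∈ (range M').biUnion S with i < n, f i ≤
      C + 2 * ((1 / 2) ^ M - (1 / 2) ^ M') * ∑ i ∈ range n, f i := by
    intro M' h
    induction M', h using Nat.le_induction with
    | base => simpa [hC] using sum_le_sum_of_subset_of_nonneg (filter_subset _ _)
                fun i _ _ => hf.1 i
    | succ M' _ ih =>
      rw [range_add_one, biUnion_insert, filter_union]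
      have a := sum_union_inter (s₁ := {i ∈ S M' | i < n})
        (s₂ := {i ∈ (range M').biUnion S | i < n}) (f := f)
      have b := sum_nonneg (s := {i ∈ S M' | i < n} ∩ {i ∈ (range M').biUnion S | i < n})
        fun i _ => hf.1 i
      have c := hS M' n
      rw [pow_succ]
      linarith
  have : ∀ i, ∃ m, i ∈ (⋃ m, (S m : Set ℕ)) → i ∈ S m := fun i => by
    by_cases h : i ∈ (⋃ m, (S m : Set ℕ))
    · exact (Set.mem_iUnion.1 h).imp fun _ h _ => h
    · exact ⟨0, fun h' => absurd h' h⟩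
  choose g hg using this
  have h3 := (sum_le_sum_of_subset_of_nonneg (s := {i ∈ range n | i ∈ ⋃ m, (S m : Set ℕ)})
    (fun i hi => ?_) fun i _ _ => hf.1 i).trans (h2 (M + (range n).sup g + 1) (by omega))
  · rw [Real.dist_eq, sub_zero, abs_of_nonneg (div_nonneg (sum_nonneg fun i _ => hf.1 i) h0.le),
      div_lt_iff₀ h0]
    rw [div_lt_iff₀ hε] at h1
    have : (0 : ℝ) ≤ (1 / 2) ^ (M + (range n).sup g + 1) := by positivity
    nlinarith
  · simp only [mem_filter, mem_biUnion, mem_range] at hi ⊢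
    have := le_sup (f := g) (mem_range.2 hi.1)
    exact ⟨⟨g i, by omega, hg i hi.2⟩, hi.1⟩

theorem pt_inj (t : ℕ) : Function.Injective (pt t) := fun a b h => by
  unfold pt at h
  split_ifs at h <;> simpa [Nat.pair_eq_pair] using h

theorem not_EU (π : ℕ ≃ ℕ) {f : ℕ → ℝ} (hf : EUWeight f)
    (h : ∀ A, π '' A ∈ EU f → phi ⁻¹' A ∈ Z) : False := by
  have h1 : ∃ m : ℕ, ∀ t, m ≤ t → ∀ S ⊆ range (2 ^ J t),
      (∀ n, ∑ c ∈ S with π (pt t c) < n, f (π (pt t c)) ≤ (1 / 2) ^ m * ∑ i ∈ range n, f i) →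
      2 * #S < 2 ^ J t := by
    by_contra hn
    push Not at hn
    choose t ht S hS1 hS2 hS3 using hn
    have := union_mem hf (fun m => (S m).image fun c => π (pt (t m) c)) fun m n => by
      rw [filter_image, sum_image fun a _ b _ e => pt_inj _ (π.injective e)]
      exact hS2 m n
    rw [← π.image_preimage (⋃ _, _)] at this
    obtain ⟨N, hN⟩ := (I_iff _).1 (h _ this) 3
    have a := hN _ (ht N)
    have b : #(S N) ≤ _ := card_le_card (t := {c ∈ range (2 ^ J (t N)) | pt (t N) c ∈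
      π ⁻¹' ⋃ m, (((S m).image fun c => π (pt (t m) c) : Finset ℕ) : Set ℕ)}) fun c hc =>
        mem_filter.2 ⟨hS1 N hc, Set.mem_iUnion.2 ⟨N, mem_image_of_mem _ hc⟩⟩
    rw [← Nat.count_eq_card_filter_range] at b
    have c := hS3 N
    have : 0 < 2 ^ J (t N) := by positivity
    omega
  obtain ⟨m, hm⟩ := h1
  obtain ⟨δ, hδ⟩ : ∃ δ : ℝ, δ = (1 / 2) ^ m / 2 := ⟨_, rfl⟩
  have hδ0 : 0 < δ := by rw [hδ]; positivity
  let F : ℕ → ℝ := fun n => ∑ i ∈ range n, f i
  have hF : Monotone F := fun a b hab => sum_le_sum_of_subset_of_nonneg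
    (range_subset_range.2 hab) fun i _ _ => hf.1 i
  let L : ℕ → ℕ := fun n => Nat.log 2 ⌊F n⌋₊
  have L1 : ∀ n, F n < 2 * 2 ^ L n := fun n => by
    have a := Nat.lt_floor_add_one (F n)
    have b : ((⌊F n⌋₊ + 1 : ℕ) : ℝ) ≤ (2 ^ (L n + 1) : ℕ) := by
      exact_mod_cast Nat.lt_pow_succ_log_self (show 1 < 2 by omega) _
    push_cast at b
    rw [pow_succ] at b
    linarith
  have L2 : ∀ n, 1 ≤ F n → 2 ^ L n ≤ F n := fun n hn => by
    have b : ((2 ^ L n : ℕ) : ℝ) ≤ ⌊F n⌋₊ := by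
      exact_mod_cast Nat.pow_log_le_self 2 (Nat.floor_pos.2 hn).ne'
    push_cast at b
    exact b.trans (Nat.floor_le (by linarith))
  obtain ⟨N, hN⟩ := eventually_atTop.1 ((hf.2.1.eventually_ge_atTop 1).and
    (hf.2.2.eventually (gt_mem_nhds (show 0 < δ ^ 2 / 4 by positivity))))
  obtain ⟨j, hj⟩ : ∃ j, j = m + (range N).sup (fun i => (π.symm i).unpair.1) + 1 := ⟨_, rfl⟩
  have big : ∀ r, N ≤ π (Nat.pair j r) := fun r => not_lt.1 fun h => by
    have := le_sup (f := fun i => (π.symm i).unpair.1) (mem_range.2 h)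
    simp only [Equiv.symm_apply_apply, Nat.unpair_pair] at this
    omega
  have line : ∀ r < 2 * 2 ^ j, ∀ S ⊆ range (2 ^ j), (∀ k, ∑ c ∈ S with
      L (π (pt (Nat.pair j r) c) + 1) = k, f (π (pt (Nat.pair j r) c)) ≤ δ * 2 ^ k) →
      2 * #S < 2 ^ j := by
    intro r hr S hS hk
    have := hm (Nat.pair j r) (by have := Nat.left_le_pair j r; omega) S (by rwa [J_pair hr])
    rw [J_pair hr] at this
    refine this fun n => ?_
    rcases lt_or_ge n N with a | a
    · rw [sum_eq_zero fun c hc => ?_]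
      · exact mul_nonneg (by positivity) (sum_nonneg fun i _ => hf.1 i)
      · have := big (if (Nat.pair j r).unpair.2 % 2 = 0 then Nat.pair (aa (Nat.pair j r)) c
          else Nat.pair c (aa (Nat.pair j r)))
        have b := (mem_filter.1 hc).2
        rw [pt, J_pair hr] at b
        omega
    rw [← sum_fiberwise_of_maps_to (s := {c ∈ S | π (pt (Nat.pair j r) c) < n})
      (t := range (L n + 1))
      (g := fun c => L (π (pt (Nat.pair j r) c) + 1)) fun c hc => mem_range.2 (Nat.lt_succ_of_le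
        (Nat.log_mono_right (Nat.floor_mono (hF (Nat.succ_le_of_lt (mem_filter.1 hc).2)))))]
    refine (sum_le_sum fun k _ => (sum_le_sum_of_subset_of_nonneg (filter_subset_filter _
      (filter_subset _ _)) fun i _ _ => hf.1 _).trans (hk k)).trans ?_
    rw [← mul_sum, geom_sum_eq (by norm_num), pow_succ]
    have := L2 n (hN n a).1
    have e : (1 / 2 : ℝ) ^ m = 2 * δ := by rw [hδ]; ring
    rw [e]
    nlinarith
  refine comb (2 ^ j) (by positivity) (fun a b => f (π (Nat.pair j (Nat.pair a b))))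
    (fun a b => L (π (Nat.pair j (Nat.pair a b)) + 1)) δ hδ0 (fun _ _ => hf.1 _)
    (fun a _ b _ => ?_) (fun k => ?_) (fun b hb S hS hk => ?_) (fun a ha S hS hk => ?_)
  · have h2 := hN _ (big (Nat.pair a b))
    have h3 := h2.1.trans (hF (Nat.le_succ _))
    have h4 := h2.2
    rw [div_lt_iff₀ (by linarith)] at h4
    nlinarith [L1 (π (Nat.pair j (Nat.pair a b)) + 1), sq_pos_of_pos hδ0]
  · let T := ({p ∈ range (2 ^ j) ×ˢ range (2 ^ j) | L (π (Nat.pair j (Nat.pair p.2 p.1)) + 1) = k}).image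
      fun p => π (Nat.pair j (Nat.pair p.2 p.1))
    have e : ∑ b ∈ range (2 ^ j), ∑ a ∈ range (2 ^ j) with
        L (π (Nat.pair j (Nat.pair a b)) + 1) = k, f (π (Nat.pair j (Nat.pair a b))) =
        ∑ i ∈ T, f i := by
      rw [sum_image fun p _ q _ e => by
        have := π.injective e
        simp only [Nat.pair_eq_pair, true_and] at this
        exact Prod.ext this.2 this.1, sum_filter, sum_product]
      simp only [sum_filter]
    rw [e]
    rcases T.eq_empty_or_nonempty with h | h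
    · rw [h, sum_empty]; positivity
    · obtain ⟨p, h1, h2⟩ := mem_image.1 (T.max'_mem h)
      have := L1 (T.max' h + 1)
      rw [← h2, (mem_filter.1 h1).2, h2] at this
      exact (sum_le_sum_of_subset_of_nonneg (fun i hi => mem_range.2 (Nat.lt_succ_of_le
        (T.le_max' i hi))) fun i _ _ => hf.1 i).trans this.le
  · have e : ∀ c, pt (Nat.pair j (2 * b + 1)) c = Nat.pair j (Nat.pair c b) := fun c => by
      have : 2 * b + 1 < 2 * 2 ^ j := by omega
      simp [pt, J, aa, this, show (2 * b + 1) / 2 = b by omega]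
    exact line (2 * b + 1) (by omega) S hS (by simpa only [e] using hk)
  · have e : ∀ c, pt (Nat.pair j (2 * a)) c = Nat.pair j (Nat.pair a c) := fun c => by
      simp [pt, J, aa, ha]
    exact line (2 * a) (by omega) S hS (by simpa only [e] using hk)

theorem result : ∃ I : Set (Set ℕ), IsIdeal I ∧ RB I Z ∧ RB Z I ∧
    ∀ (π : ℕ ≃ ℕ) (f : ℕ → ℝ), EUWeight f → I ≠ {A | π '' A ∈ EU f} := by
  refine ⟨{A | phi ⁻¹' A ∈ Z}, ⟨fun A hA B hB => ?_, fun A hA B h => ?_, fun h => ?_,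
    fun A hA => ?_⟩, ⟨phi, phi_fin, fun _ => Iff.rfl⟩, ⟨psi, psi_fin, fun B => ?_⟩,
    fun π f hf h => not_EU π hf fun A hA => (Set.ext_iff.1 h A).2 hA⟩
  · refine (Z_iff _).2 fun k => ?_
    obtain ⟨N, hN⟩ := (Z_iff _).1 hA (2 * k)
    obtain ⟨M, hM⟩ := (Z_iff _).1 hB (2 * k)
    refine ⟨max N M, fun n hn => ?_⟩
    have a := hN n (by omega)
    have b := hM n (by omega)
    have c : Nat.count (· ∈ phi ⁻¹' (A ∪ B)) n ≤
        Nat.count (· ∈ phi ⁻¹' A) n + Nat.count (· ∈ phi ⁻¹' B) n := by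
      simp only [Nat.count_eq_card_filter_range]
      refine le_trans (card_le_card fun x hx => ?_) (card_union_le _ _)
      simp only [mem_filter, mem_union, Set.mem_preimage, Set.mem_union] at hx ⊢
      tauto
    nlinarith
  · refine (Z_iff _).2 fun k => ((Z_iff _).1 hA k).imp fun N hN n hn => le_trans ?_ (hN n hn)
    exact Nat.mul_le_mul_left _ (Nat.count_mono_left fun _ _ hx => h hx)
  · obtain ⟨N, hN⟩ := (Z_iff _).1 h 2
    have := hN (N + 1) (by omega)
    simp at this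
  · have : (phi ⁻¹' A).Finite := hA.preimage' fun y _ => phi_fin y
    refine (Z_iff _).2 fun k => ⟨k * this.toFinset.card, fun n hn => le_trans ?_ hn⟩
    rw [Nat.count_eq_card_filter_range]
    exact Nat.mul_le_mul_left _ (card_le_card fun x hx => by simpa using (mem_filter.1 hx).2)
  · simp only [Set.mem_ofPred_eq, I_iff, psi_pt]
    rw [Z_dy]
    refine forall_congr' fun k => ⟨fun ⟨N, hN⟩ => ?_, fun ⟨N, hN⟩ => ⟨N, fun j hj => ?_⟩⟩
    · exact (J_big N).imp fun M hM t ht => hN _ (hM t ht)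
    · have := hN (Nat.pair j 0) (hj.trans (Nat.left_le_pair _ _))
      rwa [J_pair (by positivity)] at this

end Pool.Agent.Results.MP_8a0632_lc.GridIdeal
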